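import Pool.Agent.Helper73.DC.St8

set_option autoImplicit false

/-!
# Project DC (MP_26f0da_lc), module G2
-/

namespace Pool.Agent.Helper72.DC

open Pool.Agent.Helper73.DC
open Finset
open scoped Classical

theorem g2_scd_lt {α : Type} [Fintype α] (x : Sym α) : scd x < Fintype.card α + 2 := by
  cases x with
  | lm =>
    change 0 < Fintype.card α + 2
    omega
  | rm =>
    change 1 < Fintype.card α + 2
    omega
  | ch a =>
    have h := (Fintype.equivFin α a).isLt
    change (Fintype.equivFin α a : ℕ) + 2 < Fintype.card α + 2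
    omega

theorem g2_scd_inj {α : Type} [Fintype α] : Function.Injective (scd (α := α)) := by
  intro x y h
  cases x with
  | lm =>
    cases y with
    | lm => rfl
    | rm => exact absurd h (by change ¬ (0 = 1); omega)
    | ch b => exact absurd h (by change ¬ (0 = cd b + 2); omega)
  | rm =>
    cases y with
    | lm => exact absurd h (by change ¬ (1 = 0); omega)
    | rm => rfl
    | ch b => exact absurd h (by change ¬ (1 = cd b + 2); omega)
  | ch a =>
    cases y with
    | lm => exact absurd h (by change ¬ (cd a + 2 = 0); omega)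
    | rm => exact absurd h (by change ¬ (cd a + 2 = 1); omega)
    | ch b =>
      have h1 : cd a + 2 = cd b + 2 := h
      have h2 : (Fintype.equivFin α a : ℕ) = (Fintype.equivFin α b : ℕ) := by
        unfold cd at h1
        omega
      have h3 := (Fintype.equivFin α).injective (Fin.val_injective h2)
      rw [h3]

theorem g2_vcd_inj {α : Type} [Fintype α] (k : ℕ) :
    Function.Injective (vcd (α := α) (k := k)) := by
  intro x y h
  have e : ∀ x : Fin k → Sym α, vcd x =
      (finFunctionFinEquiv (fun j => (⟨scd (x j), g2_scd_lt (x j)⟩ :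
        Fin (Fintype.card α + 2))) : ℕ) := by
    intro x
    rw [finFunctionFinEquiv_apply]
    rfl
  rw [e x, e y] at h
  have h2 := finFunctionFinEquiv.injective (Fin.val_injective h)
  funext j
  exact g2_scd_inj (congrArg Fin.val (congrFun h2 j))

theorem g2_bd {β : Type} (S : Set β) (hS : S.Finite) (f : β → ℕ) : ∃ B, ∀ x ∈ S, f x < B := by
  obtain ⟨B, hB⟩ := (hS.image f).bddAbove
  exact ⟨B + 1, fun x hx => Nat.lt_succ_of_le (hB (Set.mem_image_of_mem f hx))⟩

theorem g2_fin {α : Type} [Fintype α] : Finite (Sym α) :=
  Finite.of_injective (fun x : Sym α => (⟨scd x, g2_scd_lt x⟩ : Fin (Fintype.card α + 2)))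
    (fun _ _ h => g2_scd_inj (congrArg Fin.val h))

/-- kind of a node -/
noncomputable def fk {α : Type} (M : MPDA α) (q : M.Q) (β : List M.Γ)
    (o : Option (Fin M.k → Sym α)) : ℕ :=
  if M.acc q then 0 else
    match β with
    | [] => 1
    | [Z] => o.elim 6 (fun x => (M.tr q Z x).elim 4 (fun _ => 3))
    | _ :: _ :: _ => 5

/-- successor -/
noncomputable def fn {α : Type} (M : MPDA α) (g : M.Q × List M.Γ → ℕ) (q : M.Q) (β : List M.Γ)
    (o : Option (Fin M.k → Sym α)) : ℕ :=
  match β with
  | [] => 0
  | [Z] => o.elim 0 (fun x => (M.tr q Z x).elim 0 (fun z => g (z.1, z.2.2)))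
  | Z :: _ :: _ => g (q, [Z])

/-- moves -/
noncomputable def fm {α : Type} (M : MPDA α) (q : M.Q) (β : List M.Γ)
    (o : Option (Fin M.k → Sym α)) (j : ℕ) : ℕ :=
  match β with
  | [] => 0
  | [Z] => o.elim 0 (fun x => (M.tr q Z x).elim 0
      (fun z => if h : j < M.k then mvd (z.2.1 ⟨j, h⟩) else 0))
  | _ :: _ :: _ => 0

/-- second successor -/
noncomputable def fs {α : Type} (M : MPDA α) (g : M.Q × List M.Γ → ℕ) (β : List M.Γ)
    (o : Option M.Q) : ℕ :=
  match β with
  | [] => 0
  | [_] => 0
  | _ :: Y :: β' => o.elim 0 (fun q' => g (q', Y :: β'))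

/-- G2 -/
theorem mG2 : StG2 := by
  intro α _ M
  have i1 : Finite M.Q := M.finQ
  have i2 : Finite M.Γ := M.finΓ
  have i3 : Finite (Sym α) := g2_fin
  obtain ⟨K0, hK0⟩ := g2_bd (Set.univ : Set (M.Q × M.Γ × (Fin M.k → Sym α))) Set.finite_univ
    (fun y => (M.tr y.1 y.2.1 y.2.2).elim 0 (fun z => z.2.2.length))
  obtain ⟨g, hg⟩ := exists_injective_nat (M.Q × List M.Γ)
  obtain ⟨qn, hqn⟩ := exists_injective_nat M.Q
  have hfin : ({x : M.Q × List M.Γ | x.2.length ≤ K0 + 1} : Set _).Finite := by
    have h := (Set.finite_univ (α := M.Q)).prod (List.finite_length_le M.Γ (K0 + 1))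
    refine h.subset ?_
    intro x hx
    exact ⟨Set.mem_univ _, hx⟩
  obtain ⟨F, hF⟩ := g2_bd _ hfin g
  obtain ⟨NQ, hNQ⟩ := g2_bd (Set.univ : Set M.Q) Set.finite_univ qn
  have hFpos : 0 < F := lt_of_le_of_lt (Nat.zero_le _) (hF (M.q0, []) (Nat.zero_le _))
  have hKt : ∀ q Z x q' d γ, M.tr q Z x = some (q', d, γ) → γ.length ≤ K0 := by
    intro q Z x q' d γ h
    have h1 := hK0 (q, Z, x) (Set.mem_univ _)
    simp only [h] at h1
    exact h1.le
  have hpg : ∀ p, Function.partialInv g (g p) = some p := Function.partialInv_left hg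
  have hpq : ∀ p, Function.partialInv qn (qn p) = some p := Function.partialInv_left hqn
  have hpv : ∀ x : Fin M.k → Sym α, Function.partialInv vcd (vcd x) = some x :=
    Function.partialInv_left (g2_vcd_inj M.k)
  have hmin : ∀ v, v < F → min v (F - 1) = v := by
    intro v hv
    omega
  refine ⟨{
    k := M.k
    F := F
    NQ := NQ
    tk := fun t c => (Function.partialInv g t).elim 6
      (fun p => fk M p.1 p.2 (Function.partialInv vcd c))
    tn := fun t c => min ((Function.partialInv g t).elim 0
      (fun p => fn M g p.1 p.2 (Function.partialInv vcd c))) (F - 1)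
    tm := fun t c j => (Function.partialInv g t).elim 0
      (fun p => fm M p.1 p.2 (Function.partialInv vcd c) j)
    ts := fun t r => min ((Function.partialInv g t).elim 0
      (fun p => fs M g p.2 (Function.partialInv qn r))) (F - 1)
    tq := fun t => (Function.partialInv g t).elim (qn M.q0) (fun p => qn p.1)
    hF := hFpos
    hn := fun t c => lt_of_le_of_lt (min_le_right _ _) (by omega)
    hs := fun t c => lt_of_le_of_lt (min_le_right _ _) (by omega)
    hq := fun t => ?_ }, K0 + 1, fun q β => g (q, β), qn, ?_⟩
  · cases Function.partialInv g t with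
    | none => exact hNQ _ (Set.mem_univ _)
    | some p => exact hNQ _ (Set.mem_univ _)
  · refine {
      hk := rfl
      hK := Nat.le_add_left 1 K0
      hKt := fun q Z x q' d γ h => (hKt q Z x q' d γ h).trans (Nat.le_succ _)
      hnum := fun q β h => hF (q, β) h
      inj := fun q β q' β' _ _ h => Prod.mk.injEq q β q' β' ▸ hg h
      hqn := fun q => hNQ q (Set.mem_univ _)
      qinj := fun q q' h => hqn h
      kacc := ?_
      knil := ?_
      ktr := ?_
      kst := ?_
      ksq := ?_ }
    · intro q β c _ hq
      change (Function.partialInv g (g (q, β))).elim 6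
        (fun p => fk M p.1 p.2 (Function.partialInv vcd c)) = 0
      rw [hpg]
      exact if_pos hq
    · intro q c hq
      constructor
      · change (Function.partialInv g (g (q, []))).elim 6
          (fun p => fk M p.1 p.2 (Function.partialInv vcd c)) = 1
        rw [hpg]
        exact if_neg hq
      · change (Function.partialInv g (g (q, []))).elim (qn M.q0) (fun p => qn p.1) = qn q
        rw [hpg]
        rfl
    · intro q Z x q' d γ hq h
      refine ⟨?_, ?_, ?_⟩
      · change (Function.partialInv g (g (q, [Z]))).elim 6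
          (fun p => fk M p.1 p.2 (Function.partialInv vcd (vcd x))) = 3
        rw [hpg, hpv]
        change (if M.acc q then 0 else (M.tr q Z x).elim 4 (fun _ => 3)) = 3
        rw [if_neg hq, h]
        rfl
      · change min ((Function.partialInv g (g (q, [Z]))).elim 0
          (fun p => fn M g p.1 p.2 (Function.partialInv vcd (vcd x)))) (F - 1) = g (q', γ)
        rw [hpg, hpv]
        change min ((M.tr q Z x).elim 0 (fun z => g (z.1, z.2.2))) (F - 1) = g (q', γ)
        rw [h]
        exact hmin _ (hF (q', γ) ((hKt q Z x q' d γ h).trans (Nat.le_succ _)))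
      · intro j
        change (Function.partialInv g (g (q, [Z]))).elim 0
          (fun p => fm M p.1 p.2 (Function.partialInv vcd (vcd x)) j) = mvd (d j)
        rw [hpg, hpv]
        change (M.tr q Z x).elim 0
          (fun z => if h : (j : ℕ) < M.k then mvd (z.2.1 ⟨j, h⟩) else 0) = mvd (d j)
        rw [h]
        exact dif_pos j.isLt
    · intro q Z x hq h
      change (Function.partialInv g (g (q, [Z]))).elim 6
        (fun p => fk M p.1 p.2 (Function.partialInv vcd (vcd x))) = 4
      rw [hpg, hpv]
      change (if M.acc q then 0 else (M.tr q Z x).elim 4 (fun _ => 3)) = 4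
      rw [if_neg hq, h]
      rfl
    · intro q Z Y β c hlen hq
      refine ⟨?_, ?_, ?_⟩
      · change (Function.partialInv g (g (q, Z :: Y :: β))).elim 6
          (fun p => fk M p.1 p.2 (Function.partialInv vcd c)) = 5
        rw [hpg]
        exact if_neg hq
      · change min ((Function.partialInv g (g (q, Z :: Y :: β))).elim 0
          (fun p => fn M g p.1 p.2 (Function.partialInv vcd c))) (F - 1) = g (q, [Z])
        rw [hpg]
        exact hmin _ (hF (q, [Z]) (Nat.le_add_left 1 K0))
      · intro q'
        change min ((Function.partialInv g (g (q, Z :: Y :: β))).elim 0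
          (fun p => fs M g p.2 (Function.partialInv qn (qn q')))) (F - 1) = g (q', Y :: β)
        rw [hpg, hpq]
        exact hmin _ (hF (q', Y :: β) ((Nat.le_succ _).trans hlen))

end Pool.Agent.Helper72.DC
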