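import Pool.Agent.Helper73.DC.St3

set_option autoImplicit false

/-! Project DC, module L8: simultaneous bounded recursion is in E2. -/

namespace Pool.Agent.Helper72.DC

open Pool.Agent.Helper73.DC
open Finset
open scoped Classical

/-- packing of `k` numbers in base `b` -/
def pk (b k : ℕ) (u : ℕ → ℕ) : ℕ := ∑ i ∈ range k, u i * b ^ i

theorem pk_succ (b k : ℕ) (u : ℕ → ℕ) : pk b (k + 1) u = u 0 + b * pk b k (fun i => u (i + 1)) := by
  unfold pk
  rw [Finset.sum_range_succ', Finset.mul_sum, pow_zero, mul_one, add_comm]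
  congr 1
  apply Finset.sum_congr rfl
  intro i _
  ring

theorem pk_lt (b : ℕ) (_ : 0 < b) (k : ℕ) : ∀ (u : ℕ → ℕ), (∀ i < k, u i < b) → pk b k u < b ^ k := by
  induction k with
  | zero =>
    intro u _
    simp [pk]
  | succ k ih =>
    intro u hu
    rw [pk_succ]
    have h0 : u 0 < b := hu 0 (Nat.succ_pos k)
    have h1 : pk b k (fun i => u (i + 1)) < b ^ k := ih _ (fun i hi => hu (i + 1) (by omega))
    have h2 : b * (pk b k (fun i => u (i + 1)) + 1) ≤ b * b ^ k := Nat.mul_le_mul_left b h1
    rw [pow_succ, Nat.mul_comm (b ^ k) b]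
    rw [Nat.mul_add, Nat.mul_one] at h2
    omega

theorem pk_dg (b : ℕ) (j : ℕ) : ∀ (k : ℕ) (u : ℕ → ℕ), j < k → (∀ i < k, u i < b) →
    dg b (pk b k u) j = u j := by
  induction j with
  | zero =>
    intro k u hk hu
    obtain ⟨k, rfl⟩ : ∃ k', k = k' + 1 := ⟨k - 1, by omega⟩
    have h0 : u 0 < b := hu 0 (Nat.succ_pos k)
    unfold dg
    rw [pk_succ, pow_zero, Nat.div_one, Nat.add_mul_mod_self_left]
    exact Nat.mod_eq_of_lt h0
  | succ j ih =>
    intro k u hk hu
    obtain ⟨k, rfl⟩ : ∃ k', k = k' + 1 := ⟨k - 1, by omega⟩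
    have h0 : u 0 < b := hu 0 (Nat.succ_pos k)
    have h1 := ih k (fun i => u (i + 1)) (by omega) (fun i hi => hu (i + 1) (by omega))
    unfold dg at h1 ⊢
    rw [pk_succ, pow_succ, Nat.mul_comm (b ^ j) b, ← Nat.div_div_eq_div_mul,
      Nat.add_mul_div_left _ _ (by omega), Nat.div_eq_of_lt h0, Nat.zero_add]
    exact h1

theorem pk_congr (b k : ℕ) (u u' : ℕ → ℕ) (h : ∀ i < k, u i = u' i) : pk b k u = pk b k u' := by
  unfold pk
  apply Finset.sum_congr rfl
  intro i hi
  rw [h i (Finset.mem_range.1 hi)]

/-- MODULE L8 -/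
theorem mL8 : StL1 → StL2 → StL3 → StL4 → StL5 → StL8 := by
  intro _ _ _ _ hL5 α _ k F G H B hF hG hH hB hbd i hi
  -- the packed recursion
  have hB1 : E2 (fun w v => B w v + 1) := E2.succ _ hB
  let F' : VF α := fun w v => pk (B w v + 1) k (fun i => F i w v)
  let G' : VF α := fun w z => pk (B w (fun n => z (n + 2)) + 1) k (fun i =>
    G i w (scons (z 0) (cat k (fun j => dg (B w (fun n => z (n + 2)) + 1) (z 1) j)
      (fun n => z (n + 2)))))
  have hF' : E2 F' := by
    have h1 := E2.fsum (α := α) (range k) (fun i w v => F i w v * (B w v + 1) ^ i)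
      (fun i hi => (hF i (Finset.mem_range.1 hi)).mul (hB1.powc i))
    exact h1
  have hBs : E2 (fun w (z : ℕ → ℕ) => B w (fun n => z (n + 2)) + 1) := hB1.sh2
  have hG' : E2 G' := by
    have h1 : ∀ i < k, E2 (fun w (z : ℕ → ℕ) =>
        G i w (scons (z 0) (cat k (fun j => dg (B w (fun n => z (n + 2)) + 1) (z 1) j)
          (fun n => z (n + 2))))) := by
      intro i hi
      have h2 := (hG i hi).subst (fun q => fun w (z : ℕ → ℕ) =>
        scons (z 0) (cat k (fun j => dg (B w (fun n => z (n + 2)) + 1) (z 1) j)
          (fun n => z (n + 2))) q) (by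
        intro q
        match q with
        | 0 => exact E2.get 0
        | q + 1 =>
          by_cases hq : q < k
          · have h3 := (hL5 (fun w (z : ℕ → ℕ) => B w (fun n => z (n + 2)) + 1)
              (fun _ z => z 1) (fun _ _ => q) (fun _ _ => q) (fun _ _ => q) hBs (E2.get 1)
              (E2.const q) (E2.const q) (E2.const q)).2.1
            have h4 : (fun w (z : ℕ → ℕ) =>
                scons (z 0) (cat k (fun j => dg (B w (fun n => z (n + 2)) + 1) (z 1) j)
                  (fun n => z (n + 2))) (q + 1)) =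
                fun w (z : ℕ → ℕ) => dg (B w (fun n => z (n + 2)) + 1) (z 1) q := by
              funext w z
              simp only [scons, cat, hq, if_true]
            rw [h4]
            exact h3
          · have h4 : (fun w (z : ℕ → ℕ) =>
                scons (z 0) (cat k (fun j => dg (B w (fun n => z (n + 2)) + 1) (z 1) j)
                  (fun n => z (n + 2))) (q + 1)) =
                fun (_ : List α) (z : ℕ → ℕ) => z (q - k + 2) := by
              funext w z
              simp only [scons, cat, hq, if_false]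
            rw [h4]
            exact E2.get (q - k + 2))
      exact h2
    have h5 := E2.fsum (α := α) (range k) (fun i w (z : ℕ → ℕ) =>
        G i w (scons (z 0) (cat k (fun j => dg (B w (fun n => z (n + 2)) + 1) (z 1) j)
          (fun n => z (n + 2)))) * (B w (fun n => z (n + 2)) + 1) ^ i)
      (fun i hi => (h1 i (Finset.mem_range.1 hi)).mul (hBs.powc i))
    exact h5
  -- the values of the packed recursion
  have key : ∀ w v y, y ≤ H w v → prec F' G' w v y = pk (B w v + 1) k (vrec k F G w v y) := by
    intro w v y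
    induction y with
    | zero => intro _; rfl
    | succ y ih =>
      intro hy
      have ih' := ih (by omega)
      have hdig : ∀ j < k, dg (B w v + 1) (prec F' G' w v y) j = vrec k F G w v y j := by
        intro j hj
        rw [ih']
        exact pk_dg (B w v + 1) j k _ hj
          (fun i hi => Nat.lt_succ_of_le (hbd w v y (by omega) i hi))
      have hcat : cat k (fun j => dg (B w v + 1) (prec F' G' w v y) j) v =
          cat k (vrec k F G w v y) v := by
        funext j
        unfold cat
        by_cases hj : j < k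
        · simp only [hj, if_true]
          exact hdig j hj
        · simp only [hj, if_false]
      have e1 : prec F' G' w v (y + 1) = pk (B w v + 1) k (fun i =>
          G i w (scons y (cat k (fun j => dg (B w v + 1) (prec F' G' w v y) j) v))) := rfl
      rw [e1, hcat]
      rfl
  have hbound : ∀ w v y, y ≤ H w v → prec F' G' w v y ≤ (B w v + 1) ^ k := by
    intro w v y hy
    rw [key w v y hy]
    exact (pk_lt _ (Nat.succ_pos _) k _
      (fun i hi => Nat.lt_succ_of_le (hbd w v y hy i hi))).le
  have hrec : E2 (fun w v => prec F' G' w v (H w v)) :=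
    E2.brec hF' hG' hH (hB1.powc k) hbound
  have hfin := (hL5 (fun w v => B w v + 1) (fun w v => prec F' G' w v (H w v)) (fun _ _ => i)
    (fun _ _ => i) (fun _ _ => i) hB1 hrec (E2.const i) (E2.const i) (E2.const i)).2.1
  have hfun : (fun w v => vrec k F G w v (H w v) i) =
      fun w v => dg (B w v + 1) (prec F' G' w v (H w v)) i := by
    funext w v
    rw [key w v (H w v) le_rfl]
    exact (pk_dg (B w v + 1) i k _ hi
      (fun i hi => Nat.lt_succ_of_le (hbd w v (H w v) le_rfl i hi))).symm
  rw [hfun]
  exact hfin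

end Pool.Agent.Helper72.DC
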